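import Mathlib
import Pool.Agent.H43S.Seq
import Pool.Agent.H43J.Crit2
import Pool.Agent.H39M.J
import Pool.Agent.Y776.AxJ.Fun

/-!
# The modular Schanuel conjecture with derivatives near every point of `ℍ^n`: a bounded number of exceptions

Let `z_0` be ANY point of `ℍ^n` and `v` any vector with nonzero components. Let the coordinates be inequivalent along the
line `z_0 + ℂ v`: there are no `i ≠ k` and rational numbers `q > 0`, `r` with `z_k = q z_i + r` on the line. The special
closure of a point has at most as many blocks which are not given by special points as the point has coordinates in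
different `GL₂⁺(ℚ)`-orbits, so for the points of the line the right-hand side of the inequality of the problem is at most
`3 n`. (3) We show that the inequality is true in bounded degree and height for all points `z = z_0 + v / l`,
`l = M, M + 1, …, M ^ τ`, with **at most `C` exceptions `l`**, where `C` does not depend on `M`: the `3 n` numbers
`j(z_i)`, `j'(z_i)`, `j''(z_i)` satisfy no relation of degree at most `d` and height at most `l ^ A` whose coefficients are
combinations of arbitrary given numbers `ξ_1, …, ξ_g`, for instance of monomials in the components of `z_0` and of `v` (so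
the relations may also contain the components of `z`), even no approximate one. If the line has equivalent coordinates
this applies to representatives of the classes. More generally the numbers `exp(w_k)`, `w = w_0 + u / l`, are added, for
arbitrary `w_0` and linearly independent `u_1, …, u_s` over `ℚ`.

This is a special case of theorems on arbitrary analytic curves `x ↦ (τ(x), w(x))` in `ℍ^p × ℂ^s` with nonconstant
`τ_i`, algebraically independent `j(τ_i)`, `j(τ_k)` for `i ≠ k` and no constant integral combination of the `w_k`: `3 p + s`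
functions can be chosen among the `4 p + 2 s` functions `τ_i`, `j(τ_i)`, `j'(τ_i)`, `j''(τ_i)`, `w_k`, `exp(w_k)`, at least
`p + s` of them among the `2 p + 2 s` functions `τ_i`, `j(τ_i)`, `w_k`, `exp(w_k)`, with the following properties. (1) Let
`X_1, …, X_N` be finite sets of elements of a number field `F` of degree at most `m`, of height at most `T`, each of them
of diameter at most `T ^ (-δ)`. For `N` curves all but `C ∑_j ∏_(i ≠ j) |X_i|` of the tuples `(x_1, …, x_N)` of
`X_1 × … × X_N` are such that the values of the chosen functions at `x_1, …, x_N` satisfy no relation of the kind above, and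
there is such a tuple if all `|X_j| > C`. (2) For a sequence `x_l` of elements of `F` of height at most `h(l)` with
`|x_l - x_k| ≤ h(l) ^ (-c)` for `l ≤ k` there are at most `C` exceptions with `h(l) ∈ [T, T ^ τ]`.

For lines through `z_0` the functions which can be chosen are all the `j(z_i)`, `j'(z_i)`, `j''(z_i)`, `exp(w_k)`. That
`j(p_0 + p_1 x)` and `j(q_0 + q_1 x)` are algebraically independent unless `q_0 + q_1 x = q (p_0 + p_1 x) + r` with rational
`q > 0`, `r` is shown in `Pool.Agent.H43J.Crit2`. The proof uses the Ax-Schanuel theorem for `j` with derivatives, relative to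
countable fields of constants (`Pool.Agent.Y776.AxJ.exists_loc`), and a determinant method for small discs
(`Pool.Agent.R349.Gen.shortS`).
-/

set_option autoImplicit false

open NumberField
open Pool.Agent

namespace Pool.Agent.Results.MP_5e64e7_nt.ApproachingEveryPoint

/-- The lattice `ℤ + ℤ τ`. -/
noncomputable def lattice (τ : ℂ) (h : 0 < τ.im) : PeriodPair where
  ω₁ := 1
  ω₂ := τ
  indep := (Y685.LL ⟨τ, h⟩).indep

/-- The modular invariant `j = 1728 g₂³ / (g₂³ - 27 g₃²)` on the upper half-plane. -/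
noncomputable def j (τ : ℂ) : ℂ :=
  if h : 0 < τ.im then 1728 * (lattice τ h).g₂ ^ 3 / ((lattice τ h).g₂ ^ 3 - 27 * (lattice τ h).g₃ ^ 2) else 0

/-- The names of the functions. -/
inductive Name (p s : ℕ) : Type
  | tau : Fin p → Name p s
  | j : Fin p → Name p s
  | dj : Fin p → Name p s
  | ddj : Fin p → Name p s
  | w : Fin s → Name p s
  | expw : Fin s → Name p s

/-- The values `τ_i(x)`, `j(τ_i(x))`, `j'(τ_i(x))`, `j''(τ_i(x))` (complex derivatives of `j`), `w_k(x)` and
`exp(w_k(x))`. -/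
noncomputable def value {p s : ℕ} (τ : Fin p → ℂ → ℂ) (w : Fin s → ℂ → ℂ) (x : ℂ) : Name p s → ℂ
  | Name.tau i => τ i x
  | Name.j i => j (τ i x)
  | Name.dj i => deriv j (τ i x)
  | Name.ddj i => deriv (deriv j) (τ i x)
  | Name.w k => w k x
  | Name.expw k => Complex.exp (w k x)

/-- An analytic curve in `ℍ^p × ℂ^s`. -/
structure Curve (U : Set ℂ) {p s : ℕ} (τ : Fin p → ℂ → ℂ) (w : Fin s → ℂ → ℂ) : Prop where
  pos : 0 < p
  isOpen : IsOpen U
  isPreconnected : IsPreconnected U
  nonempty : U.Nonempty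
  analytic : ∀ i, AnalyticOnNhd ℂ (τ i) U
  im_pos : ∀ i, ∀ z ∈ U, 0 < (τ i z).im
  nonconstant : ∀ i c, ∃ z ∈ U, τ i z ≠ c
  /-- two of the functions `j(τ_i)` are algebraically independent over `ℂ` -/
  independent : ∀ i k, i ≠ k → ∀ P : MvPolynomial (Fin 2) ℂ, P ≠ 0 →
    ∃ z ∈ U, MvPolynomial.eval ![j (τ i z), j (τ k z)] P ≠ 0
  analytic_w : ∀ k, AnalyticOnNhd ℂ (w k) U
  /-- no nontrivial combination with integral coefficients of the `w_k` is constant -/
  linear : ∀ (m : Fin s → ℤ) (c : ℂ), (∀ z ∈ U, ∑ k, (m k : ℂ) * w k z = c) → m = 0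

/-- `3 p + s` different functions, at least `p + s` of which are among the `τ_i`, `j(τ_i)`, `w_k`, `exp(w_k)` -/
def Selection {p s : ℕ} (e : Fin (3 * p + s) → Name p s) : Prop :=
  Function.Injective e ∧ p + s ≤ {k | ∀ i, e k ≠ Name.dj i ∧ e k ≠ Name.ddj i}.ncard

/-- The line `(z₀ + v x, w₀ + u x)` in `ℍ^n × ℂ^s` through a point of `ℍ^n × ℂ^s`: the components of `v` are nonzero, no two
of the functions `z₀ i + v i x` are related by a map `z ↦ q z + r` with rational `q > 0`, `r`, and the components of `u` are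
linearly independent over `ℚ`. -/
structure Line {n s : ℕ} (z₀ v : Fin n → ℂ) (u : Fin s → ℂ) : Prop where
  pos : 0 < n
  im_pos : ∀ i, 0 < (z₀ i).im
  ne_zero : ∀ i, v i ≠ 0
  unrelated : ∀ i k, i ≠ k → ∀ q r : ℚ, 0 < q → ¬ (v k = q * v i ∧ z₀ k = q * z₀ i + r)
  linear : ∀ m : Fin s → ℤ, ∑ k, (m k : ℂ) * u k = 0 → m = 0

/-- the `3 n + s` numbers `j(z_i)`, `j'(z_i)`, `j''(z_i)`, `exp(w_k)` -/
noncomputable def jets {n s : ℕ} (z : Fin n → ℂ) (w : Fin s → ℂ) : (Fin n × Fin 3) ⊕ Fin s → ℂ :=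
  Sum.elim (fun a => ![j (z a.1), deriv j (z a.1), deriv (deriv j) (z a.1)] a.2) fun k => Complex.exp (w k)

/-- The polynomials of degree at most `d` in each variable, all of whose coefficients are of the form `∑ ξ_i ι(c_i)`, where
the `c_i` are integers of the number field `F` all of whose conjugates have absolute value at most `H`. -/
def Admissible {σ : Type} {g : ℕ} (F : Type) [Field F] [NumberField F] (ι : F →+* ℂ) (ξ : Fin g → ℂ) (d : ℕ) (H : ℝ)
    (P : MvPolynomial σ ℂ) : Prop :=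
  (∀ y, P.degreeOf y ≤ d) ∧
    ∀ s, ∃ c : Fin g → 𝓞 F, (∀ i (φ : F →+* ℂ), ‖φ (c i)‖ ≤ H) ∧ P.coeff s = ∑ i, ξ i * ι (c i)

/-- The complex numbers `v` are good: every admissible polynomial takes at them a value which is at least `δ` times each of
its coefficients, and `π` and these numbers satisfy no relation `Q = 0` with a nonzero polynomial `Q` of degree at most `d`
in each variable whose coefficients are integers of `F` with conjugates of absolute value at most `H`. -/
def Good {σ : Type} {g : ℕ} (F : Type) [Field F] [NumberField F] (ι : F →+* ℂ) (ξ : Fin g → ℂ) (d : ℕ)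
    (H δ : ℝ) (v : σ → ℂ) : Prop :=
  (∀ P : MvPolynomial σ ℂ, Admissible F ι ξ d H P → ∀ s, δ * ‖P.coeff s‖ ≤ ‖MvPolynomial.aeval v P‖) ∧
  ∀ Q : MvPolynomial (Option σ) (𝓞 F), Q ≠ 0 → (∀ x, Q.degreeOf x ≤ d) →
    (∀ s (φ : F →+* ℂ), ‖φ ((Q.coeff s : 𝓞 F) : F)‖ ≤ H) →
    MvPolynomial.eval₂ (ι.comp (algebraMap (𝓞 F) F)) (fun o => o.elim (Real.pi : ℂ) v) Q ≠ 0

/-- The element `x` of `F` is a quotient of integers all of whose conjugates have absolute value at most `T`. -/
def HeightLe (F : Type) [Field F] [NumberField F] (T : ℝ) (x : F) : Prop :=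
  ∃ a b : 𝓞 F, b ≠ 0 ∧ (∀ φ : F →+* ℂ, ‖φ a‖ ≤ T ∧ ‖φ b‖ ≤ T) ∧ x = a / b

theorem j_eq {τ : ℂ} (h : 0 < τ.im) : j τ = Y776.jf τ := by
  have h1 : Y685.LC τ = lattice τ h := by
    rw [Y685.LC, UpperHalfPlane.ofComplex_apply_of_im_pos h]
    rfl
  rw [j, dif_pos h, Y776.jf, h1]

theorem j_ev {τ : ℂ} (h : 0 < τ.im) : j =ᶠ[nhds τ] Y776.jf := by
  filter_upwards [Y776.AxJ.isOpen_H.mem_nhds h] with σ hσ
  exact j_eq hσ

theorem dj_eq {τ : ℂ} (h : 0 < τ.im) : deriv j τ = deriv Y776.jf τ := (j_ev h).deriv_eq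

theorem dj_ev {τ : ℂ} (h : 0 < τ.im) : deriv j =ᶠ[nhds τ] deriv Y776.jf := by
  filter_upwards [Y776.AxJ.isOpen_H.mem_nhds h] with σ hσ
  exact dj_eq hσ

theorem ddj_eq {τ : ℂ} (h : 0 < τ.im) : deriv (deriv j) τ = deriv (deriv Y776.jf) τ := (dj_ev h).deriv_eq

theorem fmj {U : Set ℂ} {p s : ℕ} {τ : Fin p → ℂ → ℂ} {w : Fin s → ℂ → ℂ} (h : Curve U τ w) :
    Y776.AxJ.Fmj U τ w where
  op := h.isOpen
  conn := h.isPreconnected
  ne := h.nonempty
  ta := h.analytic
  im := h.im_pos
  nc := h.nonconstant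
  ji := by
    intro i k hik P hP
    by_contra hne
    obtain ⟨z, hz, hz0⟩ := h.independent i k hik P hne
    apply hz0
    rw [← hP z hz]
    congr 2
    funext m
    fin_cases m
    · exact j_eq (h.im_pos i z hz)
    · exact j_eq (h.im_pos k z hz)
  wa := h.analytic_w
  wi := h.linear

/-- the name of a function -/
def nm {p s : ℕ} : Y776.AxJ.Nj p s → Name p s := fun o => match o with
  | Sum.inl (i, 0) => Name.tau i
  | Sum.inl (i, 1) => Name.j i
  | Sum.inl (i, 2) => Name.dj i
  | Sum.inl (i, 3) => Name.ddj i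
  | Sum.inr (Sum.inl k) => Name.w k
  | Sum.inr (Sum.inr k) => Name.expw k

/-- the function with a given name -/
def mn {p s : ℕ} : Name p s → Y776.AxJ.Nj p s := fun o => match o with
  | Name.tau i => Sum.inl (i, 0)
  | Name.j i => Sum.inl (i, 1)
  | Name.dj i => Sum.inl (i, 2)
  | Name.ddj i => Sum.inl (i, 3)
  | Name.w k => Sum.inr (Sum.inl k)
  | Name.expw k => Sum.inr (Sum.inr k)

theorem nm_inj {p s : ℕ} : Function.Injective (nm (p := p) (s := s)) := by
  have h : Function.LeftInverse (mn (p := p) (s := s)) nm := by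
    rintro (⟨i, m⟩ | k | k)
    · fin_cases m <;> rfl
    · rfl
    · rfl
  exact h.injective

theorem value_eq {U : Set ℂ} {p s : ℕ} {τ : Fin p → ℂ → ℂ} {w : Fin s → ℂ → ℂ} (h : Curve U τ w) {z : ℂ}
    (hz : z ∈ U) (o : Y776.AxJ.Nj p s) : value τ w z (nm o) = Y776.AxJ.yj τ w o z := by
  rcases o with ⟨i, m⟩ | k | k
  · fin_cases m
    · rfl
    · exact j_eq (h.im_pos i z hz)
    · exact dj_eq (h.im_pos i z hz)
    · exact ddj_eq (h.im_pos i z hz)
  · rfl
  · rfl

theorem selection_of {p s : ℕ} {e : Fin (3 * p + s) → Name p s} (he : Function.Injective e) : Selection e := by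
  classical
  refine ⟨he, ?_⟩
  have h1 : {k | ∀ i, e k ≠ Name.dj i ∧ e k ≠ Name.ddj i} = {k | ∃ i, e k = Name.dj i ∨ e k = Name.ddj i}ᶜ := by
    ext k
    simp only [Set.mem_ofPred_eq, Set.mem_compl_iff, not_exists, not_or]
  have h2 : {k | ∃ i, e k = Name.dj i ∨ e k = Name.ddj i}.ncard ≤ 2 * p := by
    have h3 : (e '' {k | ∃ i, e k = Name.dj i ∨ e k = Name.ddj i}).ncard =
        {k | ∃ i, e k = Name.dj i ∨ e k = Name.ddj i}.ncard := Set.ncard_image_of_injective _ he
    rw [← h3]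
    have h4 : e '' {k | ∃ i, e k = Name.dj i ∨ e k = Name.ddj i} ⊆
        Set.range (Name.dj : Fin p → Name p s) ∪ Set.range (Name.ddj : Fin p → Name p s) := by
      rintro _ ⟨k, ⟨i, hi | hi⟩, rfl⟩
      · exact Or.inl ⟨i, hi.symm⟩
      · exact Or.inr ⟨i, hi.symm⟩
    refine (Set.ncard_le_ncard h4 ((Set.finite_range _).union (Set.finite_range _))).trans ?_
    refine (Set.ncard_union_le _ _).trans ?_
    have h5 : ∀ f : Fin p → Name p s, (Set.range f).ncard ≤ p := by
      intro f
      rw [← Set.image_univ]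
      refine (Set.ncard_image_le Set.finite_univ).trans ?_
      rw [Set.ncard_univ, Nat.card_fin]
    have h6 := h5 Name.dj
    have h7 := h5 Name.ddj
    omega
  have h5 := Set.ncard_add_ncard_compl {k | ∃ i, e k = Name.dj i ∨ e k = Name.ddj i}
  rw [Nat.card_fin] at h5
  rw [h1]
  omega

/-- the independent functions -/
theorem exists_sel {U : Set ℂ} {p s : ℕ} {τ : Fin p → ℂ → ℂ} {w : Fin s → ℂ → ℂ} (h : Curve U τ w) :
    ∃ e : Fin (3 * p + s) → Name p s, Selection e ∧
      (∀ k, AnalyticOnNhd ℂ (fun x => value τ w x (e k)) U) ∧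
      ∀ x ∈ U, Y124.LocInd (fun k x => value τ w x (e k)) x := by
  obtain ⟨e, he, hL⟩ := Y776.AxJ.exists_loc (fmj h) h.pos
  have hev : ∀ k, ∀ t ∈ U, (fun z => value τ w z (nm (e k))) =ᶠ[nhds t] Y776.AxJ.yj τ w (e k) := by
    intro k t ht
    filter_upwards [h.isOpen.mem_nhds ht] with z hz
    exact value_eq h hz _
  refine ⟨fun k => nm (e k), selection_of (nm_inj.comp he), fun k t ht =>
    (Y776.AxJ.yj_an (fmj h) (e k) t ht).congr (hev k t ht).symm, fun t ht P hP => ?_⟩
  refine hL t ht P ?_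
  have hall : ∀ᶠ z in nhds t, ∀ k, value τ w z (nm (e k)) = Y776.AxJ.yj τ w (e k) z := by
    rw [Filter.eventually_all]
    exact fun i => hev i t ht
  filter_upwards [hP, hall] with z hz hz'
  rw [← hz]
  congr 2
  funext o
  cases o with
  | none => rfl
  | some i => exact (hz' i).symm

/-- the domain of a line -/
def lineDom {n : ℕ} (z₀ v : Fin n → ℂ) : Set ℂ := {x | ∀ i, 0 < (z₀ i + v i * x).im}

theorem half_open (a b : ℂ) : IsOpen {x : ℂ | 0 < (a + b * x).im} :=
  isOpen_lt continuous_const (Complex.continuous_im.comp (by fun_prop))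

theorem half_convex (a b : ℂ) : Convex ℝ {x : ℂ | 0 < (a + b * x).im} := by
  intro x hx y hy s t hs ht hst
  have e : a + b * (s • x + t • y) = s • (a + b * x) + t • (a + b * y) := by
    have hst' : (s : ℂ) + t = 1 := by exact_mod_cast hst
    simp only [Complex.real_smul]
    linear_combination (-a) * hst'
  have h1 := convex_halfSpace_im_gt 0 (show a + b * x ∈ {c : ℂ | 0 < c.im} from hx)
    (show a + b * y ∈ {c : ℂ | 0 < c.im} from hy) hs ht hst
  show 0 < (a + b * (s • x + t • y)).im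
  rw [e]
  exact h1

theorem j_jj {τ : ℂ} (h : 0 < τ.im) : j τ = TH21.MS.jj τ := (j_eq h).trans (H39M.jf_jj h)

/-- a line is a curve -/
theorem line {n s : ℕ} {z₀ v : Fin n → ℂ} {u : Fin s → ℂ} (w₀ : Fin s → ℂ) (h : Line z₀ v u) :
    (0 : ℂ) ∈ lineDom z₀ v ∧
      Curve (lineDom z₀ v) (fun i x => z₀ i + v i * x) (fun k x => w₀ k + u k * x) := by
  classical
  have h0 : (0 : ℂ) ∈ lineDom z₀ v := by
    intro i
    rw [mul_zero, add_zero]
    exact h.im_pos i
  have hset : lineDom z₀ v = ⋂ i, {x : ℂ | 0 < (z₀ i + v i * x).im} := by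
    ext x
    simp [lineDom]
  have hopen : IsOpen (lineDom z₀ v) := by
    rw [hset]
    exact isOpen_iInter_of_finite fun i => half_open _ _
  have hconv : Convex ℝ (lineDom z₀ v) := by
    rw [hset]
    exact convex_iInter fun i => half_convex _ _
  obtain ⟨ρ, hρ, hball⟩ := Metric.isOpen_iff.1 hopen 0 h0
  have hρ' : ((ρ / 2 : ℝ) : ℂ) ∈ lineDom z₀ v := hball (by
    rw [mem_ball_zero_iff, Complex.norm_real, Real.norm_eq_abs, abs_of_pos (by linarith)]
    linarith)
  have hρ0 : ((ρ / 2 : ℝ) : ℂ) ≠ 0 := by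
    rw [Complex.ofReal_ne_zero]
    linarith
  refine ⟨h0, ⟨h.pos, hopen, hconv.isPreconnected, ⟨0, h0⟩, ?_, fun i z hz => hz i, ?_, ?_, ?_, ?_⟩⟩
  · exact fun i z _ => analyticAt_const.add (analyticAt_const.mul analyticAt_id)
  · intro i c
    by_contra hcon
    push Not at hcon
    have h1 := hcon 0 h0
    have h2 := hcon _ hρ'
    have h3 : v i * ((ρ / 2 : ℝ) : ℂ) = 0 := by linear_combination h2 - h1
    rcases mul_eq_zero.1 h3 with h4 | h4
    · exact h.ne_zero i h4
    · exact hρ0 h4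
  · intro i k hik P hP
    by_contra hcon
    push Not at hcon
    -- the identity on the intersection of two half-planes
    set V : Set ℂ := {x : ℂ | 0 < (z₀ i + v i * x).im} ∩ {x : ℂ | 0 < (z₀ k + v k * x).im} with hV
    have hVc : IsPreconnected V := ((half_convex _ _).inter (half_convex _ _)).isPreconnected
    have h0V : (0 : ℂ) ∈ V := ⟨h0 i, h0 k⟩
    have han : AnalyticOnNhd ℂ (fun x => MvPolynomial.eval (fun a => (![fun x => TH21.MS.jj (z₀ i + v i * x),
        fun x => TH21.MS.jj (z₀ k + v k * x)] : Fin 2 → ℂ → ℂ) a x) P) V := by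
      intro x hx
      refine H43J.an_poly (fun a => ?_) P
      fin_cases a
      · show AnalyticAt ℂ (fun x => TH21.MS.jj (z₀ i + v i * x)) x
        exact AnalyticAt.fun_comp (TH21.MS.jj_an _ hx.1) (analyticAt_const.add (analyticAt_const.mul analyticAt_id))
      · show AnalyticAt ℂ (fun x => TH21.MS.jj (z₀ k + v k * x)) x
        exact AnalyticAt.fun_comp (TH21.MS.jj_an _ hx.2) (analyticAt_const.add (analyticAt_const.mul analyticAt_id))
    have hg : ∀ x, MvPolynomial.eval (fun a => (![fun x => TH21.MS.jj (z₀ i + v i * x),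
        fun x => TH21.MS.jj (z₀ k + v k * x)] : Fin 2 → ℂ → ℂ) a x) P =
        MvPolynomial.eval ![TH21.MS.jj (z₀ i + v i * x), TH21.MS.jj (z₀ k + v k * x)] P := by
      intro x
      congr 2
      funext a
      fin_cases a <;> rfl
    have hz := han.eqOn_zero_of_preconnected_of_eventuallyEq_zero hVc h0V (by
      filter_upwards [hopen.mem_nhds h0] with x hx
      rw [hg, Pi.zero_apply, ← hcon x hx]
      congr 2
      funext a
      fin_cases a
      · exact (j_jj (hx i)).symm
      · exact (j_jj (hx k)).symm)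
    obtain ⟨q, r, hq, hqv, hqz⟩ := H43J.crit hP (h.ne_zero i) (h.ne_zero k) (fun x h1 h2 => by
      have h3 := hz (show x ∈ V from ⟨h1, h2⟩)
      simp only [hg, Pi.zero_apply] at h3
      exact h3) (x₁ := 0) (h0 i) (h0 k)
    exact h.unrelated i k hik q r hq ⟨hqv, hqz⟩
  · exact fun k z _ => analyticAt_const.add (analyticAt_const.mul analyticAt_id)
  · intro m c hm
    apply h.linear m
    have h1 := hm 0 h0
    have h2 := hm _ hρ'
    have h3 : ∑ k, (m k : ℂ) * (w₀ k + u k * ((ρ / 2 : ℝ) : ℂ)) - ∑ k, (m k : ℂ) * (w₀ k + u k * 0) =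
        ((ρ / 2 : ℝ) : ℂ) * ∑ k, (m k : ℂ) * u k := by
      rw [← Finset.sum_sub_distrib, Finset.mul_sum]
      exact Finset.sum_congr rfl fun k _ => by ring
    rw [h1, h2, sub_self] at h3
    exact (mul_eq_zero.1 h3.symm).resolve_left hρ0

/-- the functions which can be chosen on a line -/
theorem exists_equiv {n s : ℕ} {z₀ v : Fin n → ℂ} {u : Fin s → ℂ} (w₀ : Fin s → ℂ)
    {e : Fin (3 * n + s) → Name n s} (he : Function.Injective e)
    (hL : Y124.LocInd (fun k x => value (fun i x => z₀ i + v i * x) (fun k x => w₀ k + u k * x) x (e k)) 0) :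
    ∃ f : Fin (3 * n + s) ≃ (Fin n × Fin 3) ⊕ Fin s, ∀ k x,
      value (fun i x => z₀ i + v i * x) (fun k x => w₀ k + u k * x) x (e k) =
        jets (fun i => z₀ i + v i * x) (fun k => w₀ k + u k * x) (f k) := by
  classical
  -- linear functions are not among them
  have hlin : ∀ (k : Fin (3 * n + s)) (a b : ℂ), (∀ x, value (fun i x => z₀ i + v i * x)
      (fun k x => w₀ k + u k * x) x (e k) = a + b * x) → False := by
    intro k a b hk
    have h1 := hL (MvPolynomial.X (some k) - MvPolynomial.C a - MvPolynomial.C b * MvPolynomial.X none)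
      (Filter.Eventually.of_forall fun x => by
        simp only [map_sub, map_mul, MvPolynomial.eval_X, MvPolynomial.eval_C, Option.elim]
        rw [hk x]
        ring)
    have h2 := congrArg (MvPolynomial.eval (fun o : Option (Fin (3 * n + s)) => o.elim (0 : ℂ) fun _ => a + 1)) h1
    simp at h2
  have hcases : ∀ k, ∃ y : (Fin n × Fin 3) ⊕ Fin s, e k = Sum.elim
      (fun a : Fin n × Fin 3 => (![Name.j a.1, Name.dj a.1, Name.ddj a.1] : Fin 3 → Name n s) a.2) Name.expw y := by
    intro k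
    rcases hk : e k with i | i | i | i | i | i
    · exact (hlin k (z₀ i) (v i) fun x => by rw [hk]; rfl).elim
    · exact ⟨Sum.inl (i, 0), rfl⟩
    · exact ⟨Sum.inl (i, 1), rfl⟩
    · exact ⟨Sum.inl (i, 2), rfl⟩
    · exact (hlin k (w₀ i) (u i) fun x => by rw [hk]; rfl).elim
    · exact ⟨Sum.inr i, rfl⟩
  choose f hf using hcases
  have hinj : Function.Injective f := by
    intro a b hab
    apply he
    rw [hf a, hf b, hab]
  have hbij : Function.Bijective f := by
    rw [Fintype.bijective_iff_injective_and_card]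
    refine ⟨hinj, ?_⟩
    simp only [Fintype.card_fin, Fintype.card_sum, Fintype.card_prod]
    ring
  refine ⟨Equiv.ofBijective f hbij, fun k x => ?_⟩
  rw [Equiv.ofBijective_apply, hf k]
  rcases f k with ⟨i, a⟩ | i
  · fin_cases a <;> rfl
  · rfl

/-- **Main theorem.** (1) Tuples of points of curves in small discs; (2) sequences of points of a curve; (3) the points
`z₀ + v / l`, for every `z₀ ∈ ℍ^n`. -/
theorem result :
    (∀ (N : ℕ) (p s : Fin N → ℕ) (U : Fin N → Set ℂ) (τ : ∀ j, Fin (p j) → ℂ → ℂ) (w : ∀ j, Fin (s j) → ℂ → ℂ),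
      (∀ j, Curve (U j) (τ j) (w j)) →
      ∃ e : ∀ j, Fin (3 * p j + s j) → Name (p j) (s j), (∀ j, Selection (e j)) ∧
        ∀ K : Fin N → Set ℂ, (∀ j, IsCompact (K j)) → (∀ j, K j ⊆ U j) → ∀ (m g d : ℕ) (A δ : ℝ), 0 < δ →
        ∃ (B : ℝ) (C : ℕ) (T₀ : ℝ), ∀ (F : Type) [Field F] [NumberField F], Module.finrank ℚ F ≤ m →
          ∀ (ι : F →+* ℂ) (ξ : Fin g → ℂ) (T : ℝ), T₀ ≤ T → ∀ X : Fin N → Finset F,
            (∀ j, ∀ x ∈ X j, ι x ∈ K j ∧ HeightLe F T x) → (∀ j, ∀ x ∈ X j, ∀ y ∈ X j, ‖ι x - ι y‖ ≤ T ^ (-δ)) →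
            (({x : Fin N → F | (∀ j, x j ∈ X j) ∧ ¬ Good F ι ξ d (T ^ A) (T ^ (-B))
              (fun a : Σ j, Fin (3 * p j + s j) => value (τ a.1) (w a.1) (ι (x a.1)) (e a.1 a.2))}.ncard : ℝ) ≤
              C * ∑ j, ∏ i ∈ Finset.univ.erase j, ((X i).card : ℝ)) ∧
            ((∀ j, C < (X j).card) → ∃ x : Fin N → F, (∀ j, x j ∈ X j) ∧ Good F ι ξ d (T ^ A) (T ^ (-B))
              (fun a : Σ j, Fin (3 * p j + s j) => value (τ a.1) (w a.1) (ι (x a.1)) (e a.1 a.2)))) ∧
    (∀ (p s : ℕ) (U : Set ℂ) (τ : Fin p → ℂ → ℂ) (w : Fin s → ℂ → ℂ), Curve U τ w →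
      ∃ e : Fin (3 * p + s) → Name p s, Selection e ∧
        ∀ K : Set ℂ, IsCompact K → K ⊆ U → ∀ (m g d : ℕ) (A c θ : ℝ), 0 ≤ A → 0 < c → 1 ≤ θ →
        ∃ (B : ℝ) (C : ℕ) (T₀ : ℝ), ∀ (F : Type) [Field F] [NumberField F], Module.finrank ℚ F ≤ m →
          ∀ (ι : F →+* ℂ) (ξ : Fin g → ℂ) (h : ℕ → ℝ) (x : ℕ → F), (∀ l, ι (x l) ∈ K) → (∀ l, HeightLe F (h l) (x l)) →
            (∀ l k, l ≤ k → ‖ι (x l) - ι (x k)‖ ≤ h l ^ (-c)) → ∀ T, T₀ ≤ T → ∀ S : Finset F,
            (∀ y ∈ S, ∃ l, y = x l ∧ T ≤ h l ∧ h l ≤ T ^ θ ∧ ¬ Good F ι ξ d (h l ^ A) (h l ^ (-B))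
              (fun a => value τ w (ι (x l)) (e a))) → S.card ≤ C) ∧
    (∀ (n s : ℕ) (z₀ v : Fin n → ℂ) (w₀ u : Fin s → ℂ), Line z₀ v u →
      ∀ (m g d θ : ℕ) (A : ℝ), 0 ≤ A →
        ∃ (B : ℝ) (C : ℕ), ∀ (F : Type) [Field F] [NumberField F], Module.finrank ℚ F ≤ m →
          ∀ (ι : F →+* ℂ) (ξ : Fin g → ℂ) (M : ℕ), {l : ℕ | M ≤ l ∧ l ≤ M ^ θ ∧
            ¬ Good F ι ξ d ((l : ℝ) ^ A) ((l : ℝ) ^ (-B))
              (jets (fun i => z₀ i + v i / l) (fun k => w₀ k + u k / l))}.ncard ≤ C) := by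
  refine ⟨?_, ?_, ?_⟩
  · intro N p s U τ w hU
    choose e he han hL using fun j => exists_sel (hU j)
    refine ⟨e, he, fun K hK hKU m g d A δ hδ => ?_⟩
    exact Pool.Agent.R349.Gen.shortS m N g d (κ := fun j => Fin (3 * p j + s j)) (fun j => (hU j).isOpen)
      (fun j => (hU j).isPreconnected) (fun j k z => value (τ j) (w j) z (e j k)) han hL K hK hKU A δ hδ
  · intro p s U τ w hU
    obtain ⟨e, he, han, hL⟩ := exists_sel hU
    refine ⟨e, he, fun K hK hKU m g d A c θ hA hc hθ => ?_⟩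
    obtain ⟨B, C, T₀, -, h⟩ := Pool.Agent.H43S.seqG hU.isOpen hU.isPreconnected
      (fun k z => value τ w z (e k)) han hL m g d K hK hKU A c θ hA hc hθ
    exact ⟨B, C, T₀, h⟩
  · intro n s z₀ v w₀ u h m g d θ A hA
    obtain ⟨h0, hC⟩ := line w₀ h
    obtain ⟨e, he, han, hL⟩ := exists_sel hC
    obtain ⟨f, hf⟩ := exists_equiv w₀ he.1 (hL 0 h0)
    obtain ⟨B, C, h1⟩ := Pool.Agent.H43S.nearG hC.isOpen hC.isPreconnected
      (fun k z => value (fun i x => z₀ i + v i * x) (fun k x => w₀ k + u k * x) z (e k)) han hL h0 m g d θ A hA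
    refine ⟨B, C, fun F _ _ hF ι ξ M => le_trans (Set.ncard_le_ncard ?_ ?_) (h1 F hF ι ξ M)⟩
    · rintro l ⟨hl1, hl2, hl3⟩
      refine ⟨hl1, hl2, fun hgood => hl3 ?_⟩
      have h2 : (fun k => value (fun i x => z₀ i + v i * x) (fun k x => w₀ k + u k * x) (1 / (l : ℂ)) (e k)) =
          fun k => jets (fun i => z₀ i + v i / l) (fun k => w₀ k + u k / l) (f k) := by
        funext k
        rw [hf k]
        simp only [mul_one_div]
      rw [h2] at hgood
      exact Pool.Agent.H43S.good_reindex f hgood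
    · exact (Finset.Iic (M ^ θ)).finite_toSet.subset fun l hl => Finset.mem_coe.2 (Finset.mem_Iic.2 hl.2.1)

end Pool.Agent.Results.MP_5e64e7_nt.ApproachingEveryPoint
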