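import Mathlib
import Pool.Agent.H39M.D

/-!
# The modular Schanuel conjecture with derivatives: the dimension of the set of the exceptions

For a point `z = (z_1, …, z_n)` of `ℍⁿ` we consider the transcendence degree of the `4 n` numbers
`z_i`, `j(z_i)`, `j'(z_i)`, `j''(z_i)` over any countable subfield `F` of `ℂ`.

**Theorem.** For all `n` and `d` the set of the `z` in `ℍⁿ` for which the transcendence degree over `F`
is less than `d` has exactly the Hausdorff dimension `2 min(n, ⌊(d - 1) / 4⌋)`, and for `d ≤ 4` it is
countable.

The right-hand side of the inequality in the conjecture is at most `3 n`. So the set of ALL exceptions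
to the conjecture in `ℍⁿ`, a space of real dimension `2 n`, has Hausdorff dimension at most
`2 ⌊(3 n - 1) / 4⌋`, and for `n = 1` it is countable; and the set of the exceptions for which the
right-hand side is at most `r` (for instance all exceptions in special varieties with few blocks) has
Hausdorff dimension at most `2 ⌊(r - 1) / 4⌋`, and it is countable for `r ≤ 4`. Moreover one can take
for `F` any countable field, for instance the algebraic closure of the field generated by the values
of `j'` and `j''` at all quadratic points.

In other words: each subset of `ℍⁿ` of Hausdorff dimension greater than `2 k` contains a point at which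
the transcendence degree over `F` is at least `4 k + 4`; and this is the best possible bound.

## The proof (in `Pool.Agent.H39M`, `Pool.Agent.H39D`, `Pool.Agent.Y776`, `Pool.Agent.Y685`)

* Let `K ⊇ F` be a countable field which contains `1 / (2 π i)` and a certain countable set, and let
  `z` be a point. We consider all polynomial relations over `K` between the values of `z_i`, `g₂(z_i)`,
  `g₃(z_i)`, `η(z_i)`, `i = 1, …, n` (invariants and quasi-period of the lattice `ℤ + ℤ z_i`), as functions
  of `z_1, …, z_n`, and the space `V` of the vectors orthogonal to all their gradients at `z`.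
* Each vector `v` of `V` is the vector of the values of a derivation over `K` which is compatible
  with the modular function at all `z_i` (`vec_J`). Choose `m = dim V` coordinates on `V`. As the
  derivation with `D z_l = 1` for one of these, and `D z_l' = 0` for the others, is compatible with `j`,
  it is possible to move the four numbers `z_l`, `j(z_l)`, `j'(z_l)`, `j''(z_l)` independently of each
  other by derivations over the constants of `D`. So the transcendence degree is at least `4 m`
  (`rank_J`).
* The points with `dim V ≤ k` lie in countably many complex submanifolds of dimension `k`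
  (`H39D.dimH_rank`; points for `k = 0`), by the theorem on implicit functions.
* For the lower bound for the dimension: the set contains all points with at most
  `m = min(n, ⌊(d - 1) / 4⌋)` different coordinates.
-/

set_option autoImplicit false

namespace Pool.Agent.Results.MP_5e64e7_nt.DimensionOfExceptions

/-- the normalised Eisenstein series of weight `4` -/
noncomputable def E4 (τ : ℂ) : ℂ :=
  1 + 240 * ∑' m : ℕ, ((ArithmeticFunction.sigma 3 (m + 1) : ℕ) : ℂ) *
    Complex.exp (2 * (Real.pi : ℂ) * Complex.I * τ) ^ (m + 1)

/-- the normalised Eisenstein series of weight `6` -/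
noncomputable def E6 (τ : ℂ) : ℂ :=
  1 - 504 * ∑' m : ℕ, ((ArithmeticFunction.sigma 5 (m + 1) : ℕ) : ℂ) *
    Complex.exp (2 * (Real.pi : ℂ) * Complex.I * τ) ^ (m + 1)

/-- the modular invariant `j` -/
noncomputable def j (τ : ℂ) : ℂ := 1728 * E4 τ ^ 3 / (E4 τ ^ 3 - E6 τ ^ 2)

/-- the numbers `z i`, `j (z i)`, `j' (z i)`, `j'' (z i)` -/
def numbers {n : ℕ} (z : Fin n → ℂ) : Set ℂ :=
  {w | ∃ i, w = z i ∨ w = j (z i) ∨ w = deriv j (z i) ∨ w = deriv (deriv j) (z i)}

/-- the transcendence degree over `F` of the field generated by `S` over `F` -/
noncomputable def trd (F : IntermediateField ℚ ℂ) (S : Set ℂ) : Cardinal :=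
  Algebra.trdeg F (IntermediateField.adjoin F S)

/-- the points of `ℍⁿ` at which the transcendence degree over `F` is less than `d` -/
def Exceptions (F : IntermediateField ℚ ℂ) (n d : ℕ) : Set (Fin n → ℂ) :=
  {z | (∀ i, 0 < (z i).im) ∧ trd F (numbers z) < d}

/-- **The dimension of the set of the exceptions.** Let `F` be a countable subfield of `ℂ`. For all `n`
and `d` the set of the `z` in `ℍⁿ` such that the field generated over `F` by the `z_i`, `j(z_i)`, `j'(z_i)`,
`j''(z_i)` has transcendence degree less than `d` over `F` has the Hausdorff dimension
`2 min(n, ⌊(d - 1) / 4⌋)` (`0` for `d = 0`), and it is countable for `d ≤ 4`. -/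
theorem result (F : IntermediateField ℚ ℂ) (hF : (F : Set ℂ).Countable) (n d : ℕ) :
    dimH (Exceptions F n d) = ((2 * min n ((d - 1) / 4) : ℕ) : ENNReal) ∧
      (d ≤ 4 → (Exceptions F n d).Countable) := by
  have h1 : Exceptions F n d = {z : Fin n → ℂ | z ∈ Pool.Agent.H39M.HU n ∧
      (Pool.Agent.TH813.Rel.MK F).eRk (Pool.Agent.H39M.JE z) < (d : ℕ∞)} := by
    ext z
    refine and_congr_right (fun _ => ?_)
    exact Pool.Agent.TH813.Rel.lt_iff (k := F) (Pool.Agent.H39M.JE z) d
  rw [h1]
  exact Pool.Agent.H39M.dim_exact hF n d

end Pool.Agent.Results.MP_5e64e7_nt.DimensionOfExceptions
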