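import Pool.Agent.T44.MS.Int
import Pool.Agent.Y120.J.JDef

/-!
# The modular Schanuel conjecture with derivatives: all tuples of rational invariants near a point of the upper half-plane

Let `φ = P / Q` be a nonconstant rational function over `ℚ` with a finite value at infinity and let `z₀` be a point of the
upper half-plane with `j(z₀) = φ(∞)`. Let `n_1, …, n_k` be large integers and let `z_l` be points with `j(z_l) = φ(n_l)`; up to
`SL_2(ℤ)` these points are close to `z₀`. If they are not special and are pairwise not equivalent under `GL_2(ℚ)`, the conjecture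
predicts that the `3 k` numbers `z_l`, `j'(z_l)`, `j''(z_l)` are algebraically independent.

Let `ω_1, …, ω_s` be numbers such that `z₀`, `2 π i E_2(z₀)`, `(2 π i)^2 E_4(z₀)` and `(2 π i)^3 E_6(z₀)` are algebraic over
`ℚ(ω_1, …, ω_s)` (so `s = 3` is always possible, and `s = 1` for special `z₀`). There is a constant `G` such that for all `k`, `δ`, `D`
there is an exponent `c > 0` such that for all large `N` and for EVERY `k`-tuple of integers `n_l` in `[N, N + N^c]` (or in
`[-N - N^c, -N]`) with pairwise distances at least `G` and ALL `z_l` with `j(z_l) = φ(n_l)`: some `3 k` of the `3 k + s` numbers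
`z_l`, `j'(z_l)`, `j''(z_l)`, `ω_i`, and some `3 k - s` of the first `3 k` numbers, satisfy no polynomial relation of degree at most `δ`
in each of them over a number field of degree at most `D`, of any height. Moreover, of any `s + 1` tuples of `k` such integers
(all entries in the window, with pairwise distances at least `G`) one has the property that all the `3 k` numbers
`z_l`, `j'(z_l)`, `j''(z_l)` satisfy no such relation, for all `z_l` and all such number fields.

For `φ(∞) = 1728` one can take `s = 1` and `ω_1 = j''(i)` and for `φ(∞) = 0` one can take `s = 1` and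
`ω_1 = (2 π i)^3 E_6(ρ)`: there are at least `3 k - 1` independent numbers among the `3 k` numbers `z_l`, `j'(z_l)`, `j''(z_l)`, and at
least `3 k` among these numbers and `j''(i)`.

In the earlier theorem `AllIntegralTuples` the `j(z_l)` are large integers, that is, the points are near the cusp, and the
number is `3 k - 2`.

Proof. The points `z_l` are quotients of periods of curves `y^2 = x^3 + a x + b` with the invariant `φ(n_l)`, which have
potentially good reduction at infinity; the periods and quasi-periods, normalised with the help of Ramanujan's differential equations, are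
combinations of the values of three algebraically independent G-functions with coefficients in `ℚ(ω_1, …, ω_s)` up to algebraic numbers,
and by the theory of G-functions (the team's theorem on several shifts) the monomials in the values at all `n_l` are
linearly independent over `ℚ`. If the transcendence degree in bounded degree were too small the space of the values of the
polynomials of large degree would grow too slowly.
-/

set_option autoImplicit false

open Module

namespace Pool.Agent.Results.MP_5e64e7_nt.TuplesNearInteriorPoints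

/-- the normalised Eisenstein series of weight `2` -/
noncomputable def E2 (τ : ℂ) : ℂ :=
  1 - 24 * ∑' m : ℕ, ((ArithmeticFunction.sigma 1 (m + 1) : ℕ) : ℂ) *
    Complex.exp (2 * (Real.pi : ℂ) * Complex.I * ((m : ℂ) + 1) * τ)

/-- the normalised Eisenstein series of weight `4` -/
noncomputable def E4 (τ : ℂ) : ℂ :=
  1 + 240 * ∑' m : ℕ, ((ArithmeticFunction.sigma 3 (m + 1) : ℕ) : ℂ) *
    Complex.exp (2 * (Real.pi : ℂ) * Complex.I * ((m : ℂ) + 1) * τ)

/-- the normalised Eisenstein series of weight `6` -/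
noncomputable def E6 (τ : ℂ) : ℂ :=
  1 - 504 * ∑' m : ℕ, ((ArithmeticFunction.sigma 5 (m + 1) : ℕ) : ℂ) *
    Complex.exp (2 * (Real.pi : ℂ) * Complex.I * ((m : ℂ) + 1) * τ)

/-- the modular invariant `j = q⁻¹ + 744 + 196884 q + ⋯` -/
noncomputable def J (τ : ℂ) : ℂ := 1728 * E4 τ ^ 3 / (E4 τ ^ 3 - E6 τ ^ 2)

/-- the numbers `z`, `j'(z)`, `j''(z)` -/
noncomputable def numbers (z : ℂ) : Fin 3 → ℂ := ![z, deriv J z, deriv (deriv J) z]

/-- the numbers `z`, `2 π i E_2(z)`, `(2 π i)^2 E_4(z)`, `(2 π i)^3 E_6(z)` -/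
noncomputable def central (z : ℂ) : Fin 4 → ℂ :=
  ![z, 2 * (Real.pi : ℂ) * Complex.I * E2 z, (2 * (Real.pi : ℂ) * Complex.I) ^ 2 * E4 z, (2 * (Real.pi : ℂ) * Complex.I) ^ 3 * E6 z]

/-- The points `z_l` lie in the upper half-plane and `j(z_l) = P(n_l) / Q(n_l)`. -/
def Over (P Q : Polynomial ℚ) {k : ℕ} (n : Fin k → ℤ) (z : Fin k → ℂ) : Prop :=
  ∀ l, 0 < (z l).im ∧ J (z l) = ((P.eval (n l : ℚ) / Q.eval (n l : ℚ) : ℚ) : ℂ)

/-- The integers `n_i` lie in `[N, N + H]`, or all of them in `[-N - H, -N]`, and their pairwise distances are at least `G`. -/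
def InWindow {ι : Type} (N : ℕ) (H : ℝ) (G : ℕ) (n : ι → ℤ) : Prop :=
  ((∀ l, (N : ℝ) ≤ n l ∧ (n l : ℝ) ≤ N + H) ∨ ∀ l, (N : ℝ) ≤ -(n l : ℝ) ∧ -(n l : ℝ) ≤ N + H) ∧
    ∀ l l', l ≠ l' → (G : ℤ) ≤ |n l - n l'|

/-- Some `r` of the numbers `x_i` (with different indices) satisfy no nonzero polynomial relation of degree at most `δ` in each
unknown with coefficients in `K`. -/
def TrdegGe {ι : Type} (r δ : ℕ) (K : IntermediateField ℚ ℂ) (x : ι → ℂ) : Prop :=
  ∃ σ : Fin r → ι, Function.Injective σ ∧ ∀ P : MvPolynomial (Fin r) K, (∀ i, P.degreeOf i ≤ δ) →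
    MvPolynomial.aeval (fun i => x (σ i)) P = 0 → P = 0

/-- The lower bounds for the rational function `P / Q` with the constants `ω_1, …, ω_s`: for all tuples of a window, and for one of
any `s + 1` disjoint tuples. -/
def Bounds (P Q : Polynomial ℚ) {s : ℕ} (ω : Fin s → ℂ) : Prop :=
  ∃ G : ℕ, ∀ k δ D : ℕ, ∃ (c : ℝ) (N₀ : ℕ), 0 < c ∧ ∀ N : ℕ, N₀ ≤ N →
    (∀ n : Fin k → ℤ, InWindow N ((N : ℝ) ^ c) G n → ∀ z : Fin k → ℂ, Over P Q n z →
      ∀ (K : IntermediateField ℚ ℂ) [FiniteDimensional ℚ K], finrank ℚ K ≤ D →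
        TrdegGe (3 * k) δ K (Sum.elim (fun v : Fin k × Fin 3 => numbers (z v.1) v.2) ω) ∧
        TrdegGe (3 * k - s) δ K (fun v : Fin k × Fin 3 => numbers (z v.1) v.2)) ∧
    ∀ n : Fin (s + 1) → Fin k → ℤ, InWindow N ((N : ℝ) ^ c) G (fun p : Fin (s + 1) × Fin k => n p.1 p.2) →
      ∃ i, ∀ z : Fin k → ℂ, Over P Q (n i) z →
        ∀ (K : IntermediateField ℚ ℂ) [FiniteDimensional ℚ K], finrank ℚ K ≤ D →
          TrdegGe (3 * k) δ K (fun v : Fin k × Fin 3 => numbers (z v.1) v.2)

lemma trdegGe {ι : Type} {r r' δ : ℕ} (hr : r = r') {K : IntermediateField ℚ ℂ} {x : ι → ℂ}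
    (h : ∃ σ : Fin r → ι, Function.Injective σ ∧ Pool.Agent.Y124.TD.LIb K δ (fun i => x (σ i))) : TrdegGe r' δ K x := by
  subst hr
  obtain ⟨σ, h1, h2⟩ := h
  exact ⟨σ, h1, fun P hP h0 => Pool.Agent.Y124.TD.LIb.mv h2 P hP h0⟩

/-- The theorem: for a nonconstant rational function `P / Q` with a finite value at infinity and any point `z₀` with this
invariant; for the value `1728` (the point `i`), with the constant `j''(i)`; for the value `0` (the point `ρ`). -/
theorem result :
    (∀ P Q : Polynomial ℚ, Q ≠ 0 → P.natDegree ≤ Q.natDegree → (∀ c : ℚ, P ≠ Polynomial.C c * Q) →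
      ∀ z₀ : ℂ, 0 < z₀.im → J z₀ = ((P.coeff Q.natDegree / Q.leadingCoeff : ℚ) : ℂ) →
        ∀ (s : ℕ) (ω : Fin s → ℂ), (∀ i, IsAlgebraic (Algebra.adjoin ℚ (Set.range ω)) (central z₀ i)) → Bounds P Q ω) ∧
    (∀ P Q : Polynomial ℚ, Q ≠ 0 → P.natDegree ≤ Q.natDegree → (∀ c : ℚ, P ≠ Polynomial.C c * Q) →
      P.coeff Q.natDegree / Q.leadingCoeff = 1728 → Bounds P Q ![deriv (deriv J) Complex.I]) ∧
    (∀ P Q : Polynomial ℚ, Q ≠ 0 → P.natDegree ≤ Q.natDegree → (∀ c : ℚ, P ≠ Polynomial.C c * Q) →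
      P.coeff Q.natDegree / Q.leadingCoeff = 0 → ∀ ρ : ℂ, ρ ^ 2 + ρ + 1 = 0 → 0 < ρ.im →
        Bounds P Q ![(2 * (Real.pi : ℂ) * Complex.I) ^ 3 * E6 ρ]) := by
  have h4 : E4 = Pool.Agent.TH21.MS.E4 := funext Pool.Agent.Y120.J.E4_same
  have h6 : E6 = Pool.Agent.TH21.MS.E6 := funext Pool.Agent.Y120.J.E6_same
  have hJ : J = Pool.Agent.TH21.MS.jj := by
    funext τ
    unfold J Pool.Agent.TH21.MS.jj
    rw [h4, h6]
  have h2 : ∀ z : UpperHalfPlane, E2 z = Pool.Agent.T44.MS.e2 z := by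
    intro z
    rw [Pool.Agent.T44.MS.e2_at, EisensteinSeries.E2_eq_tsum_cexp]
    unfold E2
    rw [tsum_pnat_eq_tsum_succ (f := fun n : ℕ => ((ArithmeticFunction.sigma 1 n : ℕ) : ℂ) *
      Complex.exp (2 * (Real.pi : ℂ) * Complex.I * (z : ℂ)) ^ n)]
    congr 2
    refine tsum_congr fun m => ?_
    congr 1
    rw [← Complex.exp_nat_mul]
    congr 1
    push_cast
    ring
  have hjt : ∀ l j, Pool.Agent.T44.MS.jt l j = numbers l j := by
    intro l j
    unfold numbers Pool.Agent.T44.MS.jt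
    rw [hJ]
  have key : ∀ P Q : Polynomial ℚ, Q ≠ 0 → P.natDegree ≤ Q.natDegree → (∀ c : ℚ, P ≠ Polynomial.C c * Q) →
      ∀ z₀ : UpperHalfPlane, Pool.Agent.TH21.MS.jj z₀ = ((P.coeff Q.natDegree / Q.leadingCoeff : ℚ) : ℂ) →
        ∀ (s : ℕ) (ω : Fin s → ℂ), (∀ i, IsAlgebraic (Algebra.adjoin ℚ (Set.range ω)) (Pool.Agent.T44.MS.cen z₀ i)) →
          Bounds P Q ω := by
    intro P Q hQ hdeg hnc z₀ hz₀ s ω hω
    obtain ⟨G, hG⟩ := Pool.Agent.T44.MS.int_win hQ hdeg hnc z₀ hz₀ s ω hω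
    refine ⟨G, fun k δ D => ?_⟩
    obtain ⟨c, N₀, hc, hw⟩ := hG k δ D
    refine ⟨c, N₀, hc, fun N hN => ?_⟩
    obtain ⟨w1, w2⟩ := hw N hN
    have hzz : ∀ (n : Fin k → ℤ) (z : Fin k → ℂ), Over P Q n z → ∃ w : Fin k → UpperHalfPlane,
        (∀ l, (w l : ℂ) = z l) ∧ ∀ l, Pool.Agent.TH21.MS.jj (w l) = Pool.Agent.T44.MS.vz P Q (n l) := by
      intro n z hz
      refine ⟨fun l => ⟨z l, (hz l).1⟩, fun l => rfl, fun l => ?_⟩
      have h1 := (hz l).2
      rw [hJ] at h1
      exact h1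
    have hjz : ∀ (w : Fin k → UpperHalfPlane) (z : Fin k → ℂ), (∀ l, (w l : ℂ) = z l) →
        (fun v : Fin k × Fin 3 => Pool.Agent.T44.MS.jt (w v.1) v.2) = fun v : Fin k × Fin 3 => numbers (z v.1) v.2 := by
      intro w z hw
      funext v
      rw [hjt, hw]
    refine ⟨fun n hn z hz K _ hK => ?_, fun n hn => ?_⟩
    · obtain ⟨w, hw1, hw2⟩ := hzz n z hz
      have h1 := w1 n hn w hw2 K hK
      rw [hjz w z hw1] at h1
      have h5 := Pool.Agent.T44.MS.drop_s (x := fun v : Fin k × Fin 3 => numbers (z v.1) v.2) (ω := ω) h1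
      have h6 : k * 3 - s = 3 * k - s := by rw [mul_comm k 3]
      exact ⟨trdegGe (mul_comm k 3) h1, trdegGe (x := fun v : Fin k × Fin 3 => numbers (z v.1) v.2) h6 h5⟩
    · obtain ⟨i, hi⟩ := w2 (fun p : Fin (s + 1) × Fin k => n p.1 p.2) hn
      refine ⟨i, fun z hz K _ hK => ?_⟩
      obtain ⟨w, hw1, hw2⟩ := hzz (n i) z hz
      have h1 := hi w hw2 K hK
      have h4 : TrdegGe (3 * k) δ K (fun v : Fin k × Fin 3 => Pool.Agent.T44.MS.jt (w v.1) v.2) := trdegGe (mul_comm k 3) h1
      rw [hjz w z hw1] at h4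
      exact h4
  refine ⟨fun P Q hQ hdeg hnc z₀ hz₀ hJ₀ s ω hω => ?_, fun P Q hQ hdeg hnc h17 => ?_, fun P Q hQ hdeg hnc h0 ρ hρ hρi => ?_⟩
  · refine key P Q hQ hdeg hnc ⟨z₀, hz₀⟩ (by rw [hJ] at hJ₀; exact hJ₀) s ω fun i => ?_
    have h1 : Pool.Agent.T44.MS.cen ((⟨z₀, hz₀⟩ : UpperHalfPlane) : ℂ) i = central z₀ i := by
      unfold Pool.Agent.T44.MS.cen central
      rw [← h2 ⟨z₀, hz₀⟩, h4, h6]
      rfl
    rw [h1]
    exact hω i
  · have h1 := key P Q hQ hdeg hnc UpperHalfPlane.I (by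
      rw [UpperHalfPlane.coe_I, Pool.Agent.T44.MS.jj_I, h17]
      norm_num) 1 (fun _ => deriv (deriv Pool.Agent.TH21.MS.jj) Complex.I) (fun i => by
      rw [UpperHalfPlane.coe_I]
      exact Pool.Agent.T44.MS.cen_I i)
    have h3 : (fun _ : Fin 1 => deriv (deriv Pool.Agent.TH21.MS.jj) Complex.I) = ![deriv (deriv J) Complex.I] := by
      funext i
      rw [hJ]
      fin_cases i
      rfl
    rw [← h3]
    exact h1
  · have h1 := key P Q hQ hdeg hnc Pool.Agent.T44.MS.rho (by
      rw [Pool.Agent.T44.MS.jj_rho, h0]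
      norm_num) 1 (fun _ => Pool.Agent.T44.MS.tp ^ 3 * Pool.Agent.TH21.MS.E6 Pool.Agent.T44.MS.rho) Pool.Agent.T44.MS.cen_rho
    have hρr : ρ = Pool.Agent.T44.MS.rho := by
      have e1 := Pool.Agent.T44.MS.rho_eq
      have e2 : (ρ - Pool.Agent.T44.MS.rho) * (ρ + Pool.Agent.T44.MS.rho + 1) = 0 := by linear_combination hρ - e1
      rcases mul_eq_zero.1 e2 with e3 | e3
      · exact sub_eq_zero.1 e3
      · exfalso
        have e4 := congrArg Complex.im e3
        simp only [Complex.add_im, Complex.one_im, add_zero, Complex.zero_im] at e4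
        have e5 : 0 < (Pool.Agent.T44.MS.rho : ℂ).im := Pool.Agent.T44.MS.rho.im_pos
        linarith
    have h3 : (fun _ : Fin 1 => Pool.Agent.T44.MS.tp ^ 3 * Pool.Agent.TH21.MS.E6 Pool.Agent.T44.MS.rho) =
        ![(2 * (Real.pi : ℂ) * Complex.I) ^ 3 * E6 ρ] := by
      funext i
      rw [h6, hρr]
      fin_cases i
      rfl
    rw [← h3]
    exact h1

end Pool.Agent.Results.MP_5e64e7_nt.TuplesNearInteriorPoints
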